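import Mathlib
import Pool.Agent.Q68.EE.Torus
import Pool.Agent.Q68.EE.Sing

/-!
# MP_794bd6_an, Q1 (negative answer)

There is a real analytic diffeomorphism `f` of the two-torus such that `h(ρ) < ∫ χ₊ dρ` for every
`f`-invariant Borel probability measure `ρ`; moreover `h(ρ) = 0` and `∫ χ₊ dρ ≥ log (5/4)` for all
of them, so that the supremum of `h(ρ) - ∫ χ₊ dρ` is negative.

The example is `f (x, y) = (x + ½ sin x cos y, y - ½ cos x sin y)` on `(ℝ/2πℤ)²`. The function
`|sin x sin y|` decreases strictly along the orbits outside the zero set of `sin x sin y` and the four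
points with `cos x = cos y = 0`; on the zero set the map is monotone between its fixed points. Hence
all the invariant measures are carried by eight fixed points: four saddles with `χ₊ = log (3/2)` and
four unstable foci with `χ₊ = log (5/4)`.
-/

open MeasureTheory Filter Topology

namespace Pool.Agent.Results.MP_794bd6_an.StrictInequality

/-- The Euclidean plane. -/
abbrev Plane := EuclideanSpace ℝ (Fin 2)

/-- The two-torus `M = (ℝ/2πℤ)²`, a compact surface, with the flat Riemannian metric which makes
`proj` a local isometry. -/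
abbrev Torus := AddCircle (2 * Real.pi) × AddCircle (2 * Real.pi)

/-- The universal covering `ℝ² → (ℝ/2πℤ)²`. -/
noncomputable def proj (v : Plane) : Torus := ((v 0 : ℝ), (v 1 : ℝ))

/-- A real analytic diffeomorphism of the torus, given together with a lift to the plane, which is
a real analytic diffeomorphism of the plane (`⊤ : WithTop ℕ∞` is the class of analytic maps). -/
structure TorusDiffeo where
  /-- the diffeomorphism `f`, as a homeomorphism of the torus -/
  toHomeomorph : Torus ≃ₜ Torus
  /-- the lift `F` of `f` -/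
  lift : Plane ≃ Plane
  analytic_lift : ContDiff ℝ (⊤ : WithTop ℕ∞) lift
  analytic_lift_symm : ContDiff ℝ (⊤ : WithTop ℕ∞) lift.symm
  proj_lift : ∀ v, proj (lift v) = toHomeomorph (proj v)

/-- The entropy `H(𝒫 ∨ T⁻¹𝒫 ∨ ⋯ ∨ T⁻⁽ⁿ⁻¹⁾𝒫)` of the partition `𝒫` into the `k` level sets of
`P : X → Fin k`: the sum of `-ρ(A) log ρ(A)` over the atoms `A`. -/
noncomputable def joinEntropy {X : Type*} [MeasurableSpace X] (T : X → X) (ρ : Measure X) {k : ℕ}
    (P : X → Fin k) (n : ℕ) : ℝ :=
  ∑ s : Fin n → Fin k, Real.negMulLog (ρ.real {x | ∀ i : Fin n, P (T^[i] x) = s i})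

/-- The Kolmogorov-Sinai entropy `h(ρ)` of `T`: the supremum over the finite measurable partitions
of `lim (1/n) H(𝒫 ∨ ⋯ ∨ T⁻⁽ⁿ⁻¹⁾𝒫)`. -/
noncomputable def ksEntropy {X : Type*} [MeasurableSpace X] (T : X → X) (ρ : Measure X) : EReal :=
  ⨆ (k : ℕ) (P : X → Fin k) (_ : Measurable P),
    limsup (fun n : ℕ => ((joinEntropy T ρ P n / n : ℝ) : EReal)) atTop

/-- `log ‖Λ A‖` for a linear map `A` of the plane, where `Λ A` is the induced map of the exterior
algebra: `‖Λ A‖` is the product of the singular values of `A` which are at least one. -/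
noncomputable def logNormExterior (A : Plane →L[ℝ] Plane) : ℝ :=
  ∑ i ∈ Finset.range 2, Real.posLog ((A : Plane →ₗ[ℝ] Plane).singularValues i)

/-- `χ = χ₊` almost everywhere: for `ρ`-almost every point `x = proj v` of the torus
`χ x = lim (1/n) log ‖Λ T_x fⁿ‖`; the tangent map `T_x fⁿ` is the derivative at `v` of the iterate
`Fⁿ` of the lift. -/
def IsChiPlus (f : TorusDiffeo) (ρ : Measure Torus) (χ : Torus → ℝ) : Prop :=
  ∀ᵐ x ∂ρ, ∀ v : Plane, proj v = x →
    Tendsto (fun n : ℕ => logNormExterior (fderiv ℝ (f.lift^[n]) v) / n) atTop (𝓝 (χ x))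

/-! ### Entropy of measures carried by fixed points -/

lemma joinEntropy_eq {X : Type*} [MeasurableSpace X] {T : X → X} {ρ : Measure X}
    [IsProbabilityMeasure ρ] (hT : ∀ᵐ x ∂ρ, T x = x) {k : ℕ} (P : X → Fin k)
    {n : ℕ} (hn : n ≠ 0) :
    joinEntropy T ρ P n = ∑ c : Fin k, Real.negMulLog (ρ.real {x | P x = c}) := by
  have hit : ∀ᵐ x ∂ρ, ∀ i : ℕ, T^[i] x = x := by
    filter_upwards [hT] with x hx i
    exact Function.iterate_fixed hx i
  unfold joinEntropy
  symm
  have : NeZero n := ⟨hn⟩
  refine Fintype.sum_of_injective (fun c : Fin k => (fun _ : Fin n => c)) ?_ _ _ ?_ ?_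
  · intro a b h
    exact congrFun h 0
  · intro s hs
    have h0 : ρ {x | ∀ i : Fin n, P (T^[i] x) = s i} = 0 := by
      have : ∀ᵐ x ∂ρ, ¬ ∀ i : Fin n, P (T^[i] x) = s i := by
        filter_upwards [hit] with x hx hcon
        apply hs
        refine ⟨P x, ?_⟩
        funext i
        rw [← hcon i, hx i]
      exact measure_eq_zero_iff_ae_notMem.2 this
    rw [measureReal_def, h0]
    simp
  · intro c
    congr 1
    refine measureReal_congr ?_
    filter_upwards [hit] with x hx
    apply propext
    constructor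
    · intro h i
      rw [hx i]; exact h
    · intro h
      have := h 0
      rw [hx] at this
      exact this

lemma ksEntropy_eq_zero {X : Type*} [MeasurableSpace X] {T : X → X} {ρ : Measure X}
    [IsProbabilityMeasure ρ] (hT : ∀ᵐ x ∂ρ, T x = x) : ksEntropy T ρ = 0 := by
  have key : ∀ (k : ℕ) (P : X → Fin k),
      limsup (fun n : ℕ => ((joinEntropy T ρ P n / n : ℝ) : EReal)) atTop = 0 := by
    intro k P
    have h1 : Tendsto (fun n : ℕ => joinEntropy T ρ P n / n) atTop (𝓝 0) := by
      have h2 : Tendsto (fun n : ℕ => (∑ c : Fin k, Real.negMulLog (ρ.real {x | P x = c})) / (n : ℝ))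
          atTop (𝓝 0) := tendsto_const_div_atTop_nhds_zero_nat _
      refine h2.congr' ?_
      filter_upwards [eventually_ne_atTop 0] with n hn
      rw [joinEntropy_eq hT P hn]
    have h3 : Tendsto (fun n : ℕ => ((joinEntropy T ρ P n / n : ℝ) : EReal)) atTop (𝓝 ((0 : ℝ) : EReal)) :=
      (continuous_coe_real_ereal.tendsto _).comp h1
    simpa using h3.limsup_eq
  unfold ksEntropy
  apply le_antisymm
  · refine iSup_le fun k => iSup_le fun P => iSup_le fun _ => ?_
    rw [key]
  · refine le_iSup_of_le 1 (le_iSup_of_le (fun _ => 0) (le_iSup_of_le measurable_const ?_))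
    rw [key]

/-! ### The example -/

open Q68.EE in
/-- The diffeomorphism `(x, y) ↦ (x + ½ sin x cos y, y - ½ cos x sin y)`. -/
noncomputable def example₀ : TorusDiffeo where
  toHomeomorph := fHomeo
  lift := FFhomeo.toEquiv
  analytic_lift := contDiff_FF
  analytic_lift_symm := contDiff_FF_symm
  proj_lift := fun v => (fT_prj v).symm

open Q68.EE in
lemma fderiv_iterate {v : Plane} (hv : FF v = v) (n : ℕ) :
    fderiv ℝ (example₀.lift^[n]) v = (1 + Gm v) ^ n := by
  have : HasFDerivAt (FF^[n]) ((1 + Gm v) ^ n) v := (hasFDerivAt_FF v).iterate hv n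
  exact this.fderiv

open Q68.EE in
lemma limit_saddle {v : Plane} (h0 : Real.sin (v 0) = 0) (h1 : Real.sin (v 1) = 0) :
    Tendsto (fun n : ℕ => logNormExterior (fderiv ℝ (example₀.lift^[n]) v) / n) atTop
      (𝓝 (Real.log (3 / 2))) := by
  have hv : FF v = v := by
    ext i
    fin_cases i
    · have := FF_zero v
      rw [h0] at this
      simpa using this
    · have := FF_one v
      rw [h1] at this
      simpa using this
  have pm : ∀ x : ℝ, Real.sin x = 0 → Real.cos x = 1 ∨ Real.cos x = -1 := by
    intro x hx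
    have := Real.sin_sq_add_cos_sq x
    rw [hx] at this
    have h2 : (Real.cos x - 1) * (Real.cos x + 1) = 0 := by nlinarith
    rcases mul_eq_zero.1 h2 with h | h
    · left; linarith
    · right; linarith
  have hp : ∃ p : ℝ, (p = 1 ∨ p = -1) ∧ Real.cos (v 0) * Real.cos (v 1) = p := by
    rcases pm _ h0 with h | h <;> rcases pm _ h1 with h' | h' <;> rw [h, h'] <;> norm_num
  obtain ⟨p, hp1, hp2⟩ := hp
  have hA : ∀ n : ℕ, ∀ w : Plane, ((1 + Gm v) ^ n) w =
      !₂[(1 + p / 2) ^ n * w 0, (1 - p / 2) ^ n * w 1] := by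
    intro n
    induction n with
    | zero =>
      intro w
      ext i; fin_cases i <;> simp
    | succ n ih =>
      intro w
      rw [pow_succ', mul_apply_eq_comp, ih]
      ext i
      fin_cases i
      · simp [Gm_apply, h0, h1, hp2]
        ring
      · simp [Gm_apply, h0, h1, hp2]
        ring
  have hpos : (0 : ℝ) < 1 + p / 2 ∧ (0 : ℝ) < 1 - p / 2 := by
    rcases hp1 with h | h <;> rw [h] <;> norm_num
  have hval : ∀ n : ℕ, logNormExterior (fderiv ℝ (example₀.lift^[n]) v) = n * Real.log (3 / 2) := by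
    intro n
    rw [fderiv_iterate hv, logNormExterior, Finset.sum_range_succ, Finset.sum_range_one,
      sum_sing_of_diag _ (pow_pos hpos.1 n) (pow_pos hpos.2 n) (fun w => hA n w) Real.posLog]
    have q1 : Real.posLog ((3 / 2 : ℝ) ^ n) = n * Real.log (3 / 2) := by
      rw [Real.posLog_eq_log, Real.log_pow]
      rw [abs_of_pos (by positivity)]
      exact one_le_pow₀ (by norm_num)
    have q2 : Real.posLog ((1 / 2 : ℝ) ^ n) = 0 := by
      rw [Real.posLog_eq_zero_iff, abs_of_pos (by positivity)]
      exact pow_le_one₀ (by norm_num) (by norm_num)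
    rcases hp1 with h | h <;> rw [h]
    · have e1 : (1 + 1 / 2 : ℝ) = 3 / 2 := by norm_num
      have e2 : (1 - 1 / 2 : ℝ) = 1 / 2 := by norm_num
      rw [e1, e2, q1, q2, add_zero]
    · have e1 : (1 + -1 / 2 : ℝ) = 1 / 2 := by norm_num
      have e2 : (1 - -1 / 2 : ℝ) = 3 / 2 := by norm_num
      rw [e1, e2, q1, q2, zero_add]
  refine (tendsto_const_nhds (x := Real.log (3 / 2))).congr' ?_
  filter_upwards [eventually_ne_atTop 0] with n hn
  rw [hval]
  have : (n : ℝ) ≠ 0 := by exact_mod_cast hn
  field_simp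

open Q68.EE in
lemma limit_focus {v : Plane} (h0 : Real.cos (v 0) = 0) (h1 : Real.cos (v 1) = 0) :
    Tendsto (fun n : ℕ => logNormExterior (fderiv ℝ (example₀.lift^[n]) v) / n) atTop
      (𝓝 (Real.log (5 / 4))) := by
  have hv : FF v = v := by
    ext i
    fin_cases i
    · have := FF_zero v
      rw [h1] at this
      simpa using this
    · have := FF_one v
      rw [h0] at this
      simpa using this
  have hq : (Real.sin (v 0) * Real.sin (v 1)) ^ 2 = 1 := by
    have a := Real.sin_sq_add_cos_sq (v 0)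
    have b := Real.sin_sq_add_cos_sq (v 1)
    rw [h0] at a
    rw [h1] at b
    have a' : Real.sin (v 0) ^ 2 = 1 := by linarith
    have b' : Real.sin (v 1) ^ 2 = 1 := by linarith
    rw [mul_pow, a', b', one_mul]
  have hA1 : ∀ w : Plane, ‖(1 + Gm v) w‖ ^ 2 = 5 / 4 * ‖w‖ ^ 2 := by
    intro w
    rw [EuclideanSpace.norm_sq_eq, EuclideanSpace.norm_sq_eq, Fin.sum_univ_two, Fin.sum_univ_two]
    simp [Gm_apply, h0, h1]
    linear_combination (1 / 4 * (w 0 ^ 2 + w 1 ^ 2)) * hq
  have hA : ∀ n : ℕ, ∀ w : Plane, ‖((1 + Gm v) ^ n) w‖ ^ 2 = (5 / 4) ^ n * ‖w‖ ^ 2 := by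
    intro n
    induction n with
    | zero => intro w; simp
    | succ n ih =>
      intro w
      rw [pow_succ' (1 + Gm v), mul_apply_eq_comp, hA1, ih]
      ring
  have hval : ∀ n : ℕ, logNormExterior (fderiv ℝ (example₀.lift^[n]) v) = n * Real.log (5 / 4) := by
    intro n
    rw [fderiv_iterate hv, logNormExterior, Finset.sum_range_succ, Finset.sum_range_one]
    have key : ∀ i < 2, Real.posLog
        ((((1 + Gm v) ^ n : Plane →L[ℝ] Plane) : Plane →ₗ[ℝ] Plane).singularValues i) =
        n * Real.log (5 / 4) / 2 := by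
      intro i hi
      have hs := sq_sing_of_conformal (((1 + Gm v) ^ n : Plane →L[ℝ] Plane) : Plane →ₗ[ℝ] Plane)
        (c := (5 / 4) ^ n) (fun w => hA n w) hi
      set σ := (((1 + Gm v) ^ n : Plane →L[ℝ] Plane) : Plane →ₗ[ℝ] Plane).singularValues i with hσ
      have hσ0 : 0 ≤ σ := LinearMap.singularValues_nonneg _ _
      have h1σ : 1 ≤ σ := by
        have : 1 ≤ σ ^ 2 := by rw [hs]; exact one_le_pow₀ (by norm_num)
        nlinarith
      rw [Real.posLog_eq_log (by rwa [abs_of_nonneg hσ0])]
      have h2 : Real.log (σ ^ 2) = n * Real.log (5 / 4) := by rw [hs, Real.log_pow]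
      rw [Real.log_pow] at h2
      push_cast at h2
      linarith
    rw [key 0 (by norm_num), key 1 (by norm_num)]
    ring
  refine (tendsto_const_nhds (x := Real.log (5 / 4))).congr' ?_
  filter_upwards [eventually_ne_atTop 0] with n hn
  rw [hval]
  have : (n : ℝ) ≠ 0 := by exact_mod_cast hn
  field_simp

open Q68.EE in
/-- **Negative answer to Q1.** There is a real analytic diffeomorphism `f` of the compact surface
`(ℝ/2πℤ)²` such that every `f`-invariant Borel probability measure `ρ` satisfies
`h(ρ) < ∫ χ₊ dρ`. Moreover `h(ρ) = 0` and `∫ χ₊ dρ ≥ log (5/4)` for all these measures. -/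
theorem result : ∃ f : TorusDiffeo, ∀ ρ : Measure Torus, IsProbabilityMeasure ρ →
    MeasurePreserving f.toHomeomorph ρ ρ →
      ∃ χ : Torus → ℝ, Measurable χ ∧ IsChiPlus f ρ χ ∧ Integrable χ ρ ∧
        ksEntropy f.toHomeomorph ρ < ((∫ x, χ x ∂ρ : ℝ) : EReal) ∧
        ksEntropy f.toHomeomorph ρ = 0 ∧ Real.log (5 / 4) ≤ ∫ x, χ x ∂ρ := by
  classical
  refine ⟨example₀, fun ρ hprob hρ => ?_⟩
  have hρ' : MeasurePreserving fT ρ ρ := hρ
  have hfix := ae_fix hρ'
  have c1 : Continuous fun p : Circ × Circ => sC p.1 := continuous_sC.comp continuous_fst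
  have m1 : MeasurableSet {p : Circ × Circ | sC p.1 = 0} :=
    (isClosed_eq c1 continuous_const).measurableSet
  have hmono : Real.log (5 / 4) ≤ Real.log (3 / 2) :=
    Real.log_le_log (by norm_num) (by norm_num)
  have hpos : 0 < Real.log (5 / 4) := Real.log_pos (by norm_num)
  set χ : Torus → ℝ := fun p => if sC p.1 = 0 then Real.log (3 / 2) else Real.log (5 / 4) with hχ
  have hmeas : Measurable χ := Measurable.ite m1 measurable_const measurable_const
  have hlow : ∀ p, Real.log (5 / 4) ≤ χ p := by
    intro p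
    simp only [hχ]
    split_ifs
    · exact hmono
    · exact le_rfl
  have hint : Integrable χ ρ := Integrable.of_bound hmeas.aestronglyMeasurable (Real.log (3 / 2))
    (Eventually.of_forall fun p => by
      simp only [hχ]
      split_ifs
      · rw [Real.norm_eq_abs, abs_of_pos (by linarith)]
      · rw [Real.norm_eq_abs, abs_of_pos hpos]; exact hmono)
  have hge : Real.log (5 / 4) ≤ ∫ x, χ x ∂ρ := by
    have : ∫ _x : Torus, Real.log (5 / 4) ∂ρ ≤ ∫ x, χ x ∂ρ :=
      integral_mono (integrable_const _) hint hlow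
    simpa using this
  have hself : ∀ᵐ p ∂ρ, fT p = p := by
    filter_upwards [hfix] with p hp
    obtain ⟨v, rfl⟩ := prj_surjective p
    rw [fT_prj]
    congr 1
    rw [sC_prj_one, sC_prj_two, cC_prj_one, cC_prj_two] at hp
    ext i
    fin_cases i
    · have := FF_zero v
      rcases hp with h | h
      · rw [h.1] at this; simpa using this
      · rw [h.2] at this; simpa using this
    · have := FF_one v
      rcases hp with h | h
      · rw [h.2] at this; simpa using this
      · rw [h.1] at this; simpa using this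
  have hent : ksEntropy example₀.toHomeomorph ρ = 0 := ksEntropy_eq_zero hself
  refine ⟨χ, hmeas, ?_, hint, ?_, hent, hge⟩
  · filter_upwards [hfix] with p hp v hv
    have hv' : prj v = p := hv
    rw [← hv', sC_prj_one, sC_prj_two, cC_prj_one, cC_prj_two] at hp
    rw [← hv']
    rcases hp with h | h
    · have e : χ (prj v) = Real.log (3 / 2) := by
        simp only [hχ]
        rw [if_pos]
        rw [sC_prj_one]; exact h.1
      rw [e]
      exact limit_saddle h.1 h.2
    · have e : χ (prj v) = Real.log (5 / 4) := by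
        simp only [hχ]
        rw [if_neg]
        rw [sC_prj_one]
        intro h3
        have := Real.sin_sq_add_cos_sq (v 0)
        rw [h3, h.1] at this
        norm_num at this
      rw [e]
      exact limit_focus h.1 h.2
  · rw [hent]
    have : ((0 : ℝ) : EReal) < ((∫ x, χ x ∂ρ : ℝ) : EReal) :=
      EReal.coe_lt_coe_iff.2 (lt_of_lt_of_le hpos hge)
    simpa using this

end Pool.Agent.Results.MP_794bd6_an.StrictInequality
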